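import Pool.Agent.KS6_11.DetNormal.Rational

set_option autoImplicit false

/-!
# MP_a16150_an, Q1 (yes), in a stronger form: one deterministic number for all rational functions

`Pool.Agent.KS6_11.DetNormal`: `freq r x w N` is the frequency of the block `w` of base-`r` digits
among the first `N` positions of the expansion of `x`; `Normal r x` and `Deterministic r x` say that
`x` is normal or deterministic in base `r`, and `Sparse r x` says that the nonzero digits of `x` have
density zero (this implies `Deterministic r x`). `NotAffine P Q` says that the rational function
`P / Q` is not of the form `c X + b` with `c` rational.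
-/

namespace Pool.Agent.Results.MP_a16150_an.RationalFunctions

open Polynomial
open Pool.Agent.KS6_11.DetNormal

/-- Let `r ≥ 2`.
1. There is a number `x`, normal in base `r`, such that `1 / x` is deterministic in base `r`.
2. For every countable subfield `K` of `ℝ` (for instance the real algebraic numbers) and every open
   interval there is a number `y` in it, with digits in base `r` equal to `0` outside a set of
   positions of density zero, hence deterministic, such that the values at `y` of **all** the rational
   functions over `K`, except for those of the form `c X + b` with `c` rational, are normal in base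
   `r`: not only `1 / y`, but also `y ^ 2`, `√2 y`, `(y ^ 3 + 1) / (y - √5)`, … .
3. More generally, for every sequence of functions `F i` on an open interval each of which is strictly
   differentiable with an irrational derivative outside a countable set of points, there is such a
   `y` in the interval for which all the numbers `F i y` are normal in base `r`.
4. No number is normal and deterministic in base `r`. -/
theorem result (r : ℕ) (hr : 2 ≤ r) :
    (∃ x : ℝ, Normal r x ∧ Deterministic r (1 / x)) ∧
    (∀ K : Subfield ℝ, Countable K → ∀ u v : ℝ, u < v →
      ∃ y, u < y ∧ y < v ∧ Sparse r y ∧ Deterministic r y ∧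
        ∀ P Q : K[X], Q ≠ 0 → NotAffine P Q → Normal r (aeval y P / aeval y Q)) ∧
    (∀ u v : ℝ, u < v → ∀ F : ℕ → ℝ → ℝ,
      (∀ i, {y | u < y ∧ y < v ∧ ¬ ∃ β, Irrational β ∧ HasStrictDerivAt (F i) β y}.Countable) →
      ∃ y, u < y ∧ y < v ∧ Sparse r y ∧ Deterministic r y ∧ ∀ i, Normal r (F i y)) ∧
    (∀ x : ℝ, Normal r x → ¬ Deterministic r x) :=
  ⟨reciprocal hr, fun K _ _ _ huv => rational hr huv K, fun _ _ huv _ hF => general hr huv hF,
    fun _ h => h.not_deterministic hr⟩

end Pool.Agent.Results.MP_a16150_an.RationalFunctions
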